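import Pool.Agent.V11298.BK.Dom
import Pool.Agent.H207R2.BL.Mirror

/-!
# The Birkhoff-Lewis conjecture for planar graphs whose vertices are covered by few faces

The starting file `RootFreeBelowFive` shows that a planar graph with `n` vertices has no chromatic root `q > 5 - 1/n`.
Here `n` is replaced by the number of vertices of the largest minor of minimum degree at least five, which can be
much smaller. It is at most `6 k - 12` if the vertices of `G` are covered by `k` faces: then a planar graph `G'` is
obtained by adding a vertex in each of these faces and joining it to the vertices of the face, so `G` is the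
complement of a dominating set `K` of size `k` in `G'`, and a minor of `G` with `m` vertices and minimum degree at
least five gives a planar graph with `m + k` vertices and at least `5 m / 2 + m` edges, so
`7 m / 2 ≤ 3 (m + k) - 6`. In the same way one can allow a set `U` of exceptional vertices.
-/

set_option autoImplicit false

namespace Pool.Agent.Results.MP_0d034c_co.FewFaces

open Polynomial
open Pool.Agent.H207R2.BL (IsDrawing MirrorDrawing ConnSet IsChrom)

/-- `G` can be drawn in the plane with non-crossing arcs: vertices are distinct points, every edge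
is an arc (an injective continuous curve) joining its two ends and avoiding all vertices in between,
and arcs of different edges do not meet in between. -/
def Planar {V : Type} (G : SimpleGraph V) : Prop :=
  ∃ (f : V → ℝ × ℝ) (γ : V → V → ℝ → ℝ × ℝ), IsDrawing G f γ

/-- Every minor of `G` with minimum degree at least five has at most `N` vertices: whenever more than `N` pairwise
disjoint connected sets of vertices are given, one of them is joined by edges of `G` to at most four of the
others. -/
def HeavyMinorsLe (N : ℕ) {V : Type} (G : SimpleGraph V) : Prop :=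
  ∀ (m : ℕ) (B : Fin m → Set V), N < m → (∀ i, ConnSet G (B i)) →
    (∀ i j, i ≠ j → Disjoint (B i) (B j)) →
    ∃ i, {j | j ≠ i ∧ ∃ x ∈ B i, ∃ y ∈ B j, G.Adj x y}.ncard ≤ 4

/-- `p` is positive for all real `q > 5 - 1/N`, and even for all real `q > 4` if `N ≤ 11` -/
def PosRange (N : ℕ) (p : ℝ[X]) : Prop :=
  ∀ q : ℝ, 4 < q → (N ≤ 11 ∨ 5 - 1 / (N : ℝ) < q) → 0 < p.eval q

/-- **Planar graphs whose vertices are covered by few faces.** Let `p` be the chromatic polynomial (`IsChrom`).
(1) If `G` is planar and all minors of `G` of minimum degree at least five have at most `N` vertices, then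
`p(q) > 0` for all real `q > 4` with `q > 5 - 1/N`, and for all real `q > 4` if `N ≤ 11`.
(2) Let `G'` be a planar graph, `K` and `U` sets of vertices such that every vertex outside `K ∪ U` has a neighbour
in `K`. Then (1) holds for every subgraph `G` of `G' - K` with `N = 2 |U| + 6 |K| - 12`.
(So if all but `j` vertices of the plane graph `G` are covered by `k` faces, there are no roots `q > 4` with
`q > 5 - 1/(2 j + 6 k - 12)`, and no roots `q > 4` if `2 j + 6 k ≤ 23`, for example if `k = 3`, `j ≤ 2`.)
(3) Let `G` be drawn symmetrically with respect to the `x`-axis, no edge crossing the axis. If all minors of minimum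
degree at least five of the part of `G` in the closed upper half plane have at most `N` vertices, then `p(q) > 0` for
the same `q`. -/
theorem result :
    (∀ (V : Type) [Finite V] (G : SimpleGraph V), Planar G → ∀ N : ℕ, HeavyMinorsLe N G →
      ∀ p : ℝ[X], IsChrom G p → PosRange N p) ∧
    (∀ (W : Type) [Finite W] (G' : SimpleGraph W), Planar G' → ∀ K U : Set W,
      (∀ w, w ∉ K → w ∉ U → ∃ x ∈ K, G'.Adj w x) →
      ∀ G : SimpleGraph {w : W // w ∉ K}, (∀ a b, G.Adj a b → G'.Adj a.1 b.1) →
      ∀ p : ℝ[X], IsChrom G p → PosRange (2 * U.ncard + 6 * K.ncard - 12) p) ∧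
    (∀ (V : Type) [Finite V] (G : SimpleGraph V) (f : V → ℝ × ℝ) (γ : V → V → ℝ → ℝ × ℝ),
      MirrorDrawing G f γ → ∀ N : ℕ, HeavyMinorsLe N (G.induce {v | 0 ≤ (f v).2}) →
      ∀ p : ℝ[X], IsChrom G p → PosRange N p) := by
  refine ⟨?_, ?_, ?_⟩
  · intro V _ G hG N hN p hp q h4 hq
    obtain ⟨f, γ, h⟩ := hG
    rw [Pool.Agent.H207R2.BL.eq_chr hp]
    exact Pool.Agent.V11298.BK.heavy_pos ⟨h4, hq⟩ G (Pool.Agent.Y865.RF.pl V G f γ h) hN
  · intro W _ G' hG' K U hKU G hG p hp q h4 hq
    obtain ⟨f, γ, h⟩ := hG'
    rw [Pool.Agent.H207R2.BL.eq_chr hp]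
    refine Pool.Agent.V11298.BK.ck_pos (k := K.ncard) (j := U.ncard) ⟨h4, hq⟩ G
      ⟨W, inferInstance, G', Subtype.val, K, U, Subtype.val_injective, Pool.Agent.Y865.RF.pl W G' f γ h, hG,
        le_rfl, le_rfl, fun v => v.2, fun v => ?_⟩
    by_cases hv : v.1 ∈ U
    · exact Or.inl hv
    · exact Or.inr (hKU v.1 v.2 hv)
  · intro V _ G f γ hM N hN p hp q h4 hq
    set H := G.induce {v | 0 ≤ (f v).2} with hH
    have hW : ¬ Pool.Agent.Y865.RF.WK V G := Pool.Agent.Y865.RF.pl V G f γ hM.drawing
    have hWH : ¬ Pool.Agent.Y865.RF.WK _ H :=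
      Pool.Agent.V11298.BK.wk_emb Subtype.val Subtype.val_injective (fun u v h => h) hW
    have h1 : 0 < (Pool.Agent.H207R2.BL.chr H).eval q :=
      Pool.Agent.V11298.BK.heavy_pos ⟨h4, hq⟩ H hWH hN
    have h2 := Pool.Agent.H207R2.BL.mirror_ineq G f γ hM p (Pool.Agent.H207R2.BL.chr H) hp
      (Pool.Agent.H207R2.BL.chr_spec H) q h4.le
    by_contra hcon
    push Not at hcon
    have h3 : (0 : ℝ) < q ^ (Nat.card {v // (f v).2 = 0}) := by
      have : (0 : ℝ) < q := by linarith
      positivity
    have h5 := mul_nonpos_of_nonneg_of_nonpos h3.le hcon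
    nlinarith [pow_pos h1 2]

end Pool.Agent.Results.MP_0d034c_co.FewFaces
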